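import Pool.Agent.Lib.MP_1a91b9_nuI.Fb.TransB

/-!
# Theorems on towers for a form of the curve over the base field: the two questions
-/

set_option autoImplicit false

namespace Pool.Agent.Lib.MP_1a91b9_nuI

open NumberField IsDedekindDomain WeierstrassCurve Module

section
variable {a' b' a b : ℤ} {n : ℕ} {j' j d : ℤ}

/-- the first question -/
theorem Four.thmB1 (h : Four a' b' a b n j' j d) (D₀ : ℤ) (hD₀ : D₀ ≠ 0)
    (H : ThmB (a * D₀ ^ 2) (b * D₀ ^ 3) d (fun _ => Con1)) :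
    ThmB (a' * D₀ ^ 2) (b' * D₀ ^ 3) d (fun _ => Con1) :=
  h.thmB D₀ hD₀ (fun _ => Con1) (fun _ => Con1)
    (fun _ _ _ _ _ _ => ⟨∅, fun _ _ _ _ N _ _ _ _ _ _ _ _ _ _ _ _ _ _ _ W D hD hW _ hQ =>
      h.q1 N W D hD hW hQ⟩) H

/-- the second question -/
theorem Four.thmB2 [Pool.Agent.Lib.MP_1a91b9_nuT.CD] (h : Four a' b' a b n j' j d) (D₀ : ℤ)
    (hD₀ : D₀ ≠ 0) (H : ThmB (a * D₀ ^ 2) (b * D₀ ^ 3) d Con2') :
    ThmB (a' * D₀ ^ 2) (b' * D₀ ^ 3) d Con2' := by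
  refine h.thmB D₀ hD₀ Con2' Con2' ?_ H
  intro F₀ _ _ α β hαβ
  obtain ⟨m₀, hm₀, hdvd⟩ := exists_dvd_int hαβ
  refine ⟨(6 * discr F₀ * m₀).natAbs.primeFactors, ?_⟩
  intro ℓ hℓ hT m N L M _ _ _ _ _ _ _ _ _ _ _ _ hM W D hD hW hW' hQ hf
  have hne : 6 * discr F₀ * m₀ ≠ 0 :=
    mul_ne_zero (mul_ne_zero (by norm_num) (discr_ne_zero F₀)) hm₀
  have hg : ¬ (ℓ : ℤ) ∣ 6 * discr F₀ * m₀ := by
    intro h1
    exact hT (Nat.mem_primeFactors.2 ⟨hℓ, Int.natCast_dvd.1 h1, Int.natAbs_ne_zero.2 hne⟩)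
  have hg6 : ¬ (ℓ : ℤ) ∣ 6 := by
    rintro ⟨c, hc⟩
    exact hg ⟨c * discr F₀ * m₀, by linear_combination discr F₀ * m₀ * hc⟩
  have hgd : ¬ (ℓ : ℤ) ∣ discr F₀ := by
    rintro ⟨c, hc⟩
    exact hg ⟨6 * c * m₀, by rw [hc]; ring⟩
  have hgm : ¬ (ℓ : ℤ) ∣ m₀ := fun h => hg (h.mul_left _)
  have h2 : ℓ ≠ 2 := by
    rintro rfl
    exact hg6 ⟨3, by norm_num⟩
  have h3 : ℓ ≠ 3 := by
    rintro rfl
    exact hg6 ⟨2, by norm_num⟩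
  have h4 : ℓ ≠ 4 := by
    rintro rfl
    exact absurd hℓ (by decide)
  have h5 : 5 ≤ ℓ := by
    have := hℓ.two_le
    omega
  obtain ⟨C₂, hC₂⟩ := hW'
  refine h.q2g h5 N W D hD hW (fun v hv => ?_) (hQ hf)
  refine good_tower_b (M := M) hℓ h5 hM (not_mem_sq hℓ hgd) (h.jeq D) (fun w hw => ?_) C₂ hC₂ v hv
  have h6 := int_not_mem hℓ w hw hgm
  have h7 : algebraMap (𝓞 F₀) (𝓞 L) (4 * α ^ 3 + 27 * β ^ 2) ∉ w.asIdeal := by
    intro h7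
    apply h6
    obtain ⟨c, hc⟩ := hdvd
    have h8 := congrArg (algebraMap (𝓞 F₀) (𝓞 L)) hc
    rw [map_intCast, map_mul] at h8
    rw [h8]
    exact Ideal.mul_mem_right _ _ h7
  have e : 4 * algebraMap F₀ L (algebraMap (𝓞 F₀) F₀ α) ^ 3 +
      27 * algebraMap F₀ L (algebraMap (𝓞 F₀) F₀ β) ^ 2 =
      algebraMap (𝓞 L) L (algebraMap (𝓞 F₀) (𝓞 L) (4 * α ^ 3 + 27 * β ^ 2)) := by
    rw [← IsScalarTower.algebraMap_apply (𝓞 F₀) (𝓞 L) L, IsScalarTower.algebraMap_apply (𝓞 F₀) F₀ L]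
    simp only [map_add, map_mul, map_pow, map_ofNat]
  show w.valuation L (4 * algebraMap F₀ L (algebraMap (𝓞 F₀) F₀ α) ^ 3 +
    27 * algebraMap F₀ L (algebraMap (𝓞 F₀) F₀ β) ^ 2) = 1
  rw [e]
  refine le_antisymm (w.valuation_le_one _) (not_lt.1 fun h => h7 ?_)
  exact (w.valuation_lt_one_iff_mem (K := L) _).1 h

end

/-- the theorem for the thirteen orders, first question -/
theorem allB1 (H : ∀ A B J d : ℤ, 4 * A ^ 3 + 27 * B ^ 2 ≠ 0 →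
      6912 * A ^ 3 = J * (4 * A ^ 3 + 27 * B ^ 2) → (J, d) ∈ nine →
      ThmB A B d (fun _ => Con1))
    (A B J d : ℤ) (hAB : 4 * A ^ 3 + 27 * B ^ 2 ≠ 0)
    (hj : 6912 * A ^ 3 = J * (4 * A ^ 3 + 27 * B ^ 2)) (hJ : (J, d) ∈ thirteen) :
    ThmB A B d (fun _ => Con1) := by
  rcases thirteen_cases hJ with h9 | ⟨a', b', a, b, n, j, h⟩
  · exact H A B J d hAB hj h9
  · obtain ⟨D, hD, rfl, rfl⟩ := h.int A B hAB hj
    exact h.thmB1 D hD (H (a * D ^ 2) (b * D ^ 3) j d (h.discV D hD) (h.jV D) h.jnine)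

/-- the theorem for the thirteen orders, second question -/
theorem allB2 [Pool.Agent.Lib.MP_1a91b9_nuT.CD] (H : ∀ A B J d : ℤ, 4 * A ^ 3 + 27 * B ^ 2 ≠ 0 →
      6912 * A ^ 3 = J * (4 * A ^ 3 + 27 * B ^ 2) → (J, d) ∈ nine → ThmB A B d Con2')
    (A B J d : ℤ) (hAB : 4 * A ^ 3 + 27 * B ^ 2 ≠ 0)
    (hj : 6912 * A ^ 3 = J * (4 * A ^ 3 + 27 * B ^ 2)) (hJ : (J, d) ∈ thirteen) :
    ThmB A B d Con2' := by
  rcases thirteen_cases hJ with h9 | ⟨a', b', a, b, n, j, h⟩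
  · exact H A B J d hAB hj h9
  · obtain ⟨D, hD, rfl, rfl⟩ := h.int A B hAB hj
    exact h.thmB2 D hD (H (a * D ^ 2) (b * D ^ 3) j d (h.discV D hD) (h.jV D) h.jnine)

end Pool.Agent.Lib.MP_1a91b9_nuI
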