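import Pool.Agent.Lib.MP_1a91b9_nuI.Fb.AllB

/-!
# Theorems on towers for a form of the curve over the base field: the two curves for which nothing is
supposed on the L-function
-/

set_option autoImplicit false

namespace Pool.Agent.Lib.MP_1a91b9_nuI

open NumberField IsDedekindDomain WeierstrassCurve Module

/-- The theorem on towers for the forms `y² = x³ + α x + β` of `y² = x³ + A x + B`; for the curves
`y² = x³ + 16` and `y² = x³ - 480 x + 4048` over `K` there is no hypothesis on the L-function and the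
exceptional set is `S₁`, `S₂`. Ramification above the prime numbers of `T` is not permitted. -/
def ThmY (A B d : ℤ) (S₁ S₂ : Finset ℕ)
    (Q : ∀ (_ℓ : ℕ) (N : Type) [Field N] [NumberField N], WeierstrassCurve N → Prop) : Prop :=
  ∀ (K N₀ F₀ L₀ : Type) [Field K] [NumberField K] [Field N₀] [NumberField N₀] [Field F₀]
    [NumberField F₀] [Field L₀] [NumberField L₀] [DecidableEq L₀] [Algebra K F₀] [Algebra N₀ F₀]
    [Algebra K L₀] [Algebra F₀ L₀] [IsScalarTower K F₀ L₀], finrank ℚ K = 2 →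
    (∃ z : K, z ^ 2 = (d : K)) →
    IntermediateField.adjoin N₀ (Set.range (algebraMap K F₀)) = ⊤ →
    ∀ x y : L₀, Tor (⟨0, 0, 0, ((A : ℤ) : L₀), ((B : ℤ) : L₀)⟩ : WeierstrassCurve L₀) x y →
    IntermediateField.adjoin K {x, y} = ⊤ →
    ∀ α β : 𝓞 N₀, 4 * α ^ 3 + 27 * β ^ 2 ≠ 0 →
    (∃ C : VariableChange L₀, C • (⟨0, 0, 0, algebraMap F₀ L₀ (algebraMap N₀ F₀ α),
      algebraMap F₀ L₀ (algebraMap N₀ F₀ β)⟩ : WeierstrassCurve L₀) =
        ⟨0, 0, 0, ((A : ℤ) : L₀), ((B : ℤ) : L₀)⟩) →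
    (¬ (((α = 0 ∧ β = 16) ∨ (α = -480 ∧ β = 4048)) ∧ finrank K F₀ = 1) →
      Lne (⟨0, 0, 0, (α : N₀), (β : N₀)⟩ : WeierstrassCurve N₀)) →
    ∃ S T : Finset ℕ, (α = 0 ∧ β = 16 ∧ finrank K F₀ = 1 → S = S₁) ∧
      (α = -480 ∧ β = 4048 ∧ finrank K F₀ = 1 → S = S₂) ∧
      ∀ ℓ : ℕ, ℓ.Prime → ℓ ∉ S →
        TowB ℓ T d (algebraMap (𝓞 N₀) (𝓞 F₀) α) (algebraMap (𝓞 N₀) (𝓞 F₀) β) (Q ℓ)

/-- integral coefficients -/
theorem TowW.towB {ℓ : ℕ} {T : Finset ℕ} {A B d : ℤ} {F₀ : Type} [Field F₀] [NumberField F₀]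
    {Q : ∀ (N : Type) [Field N] [NumberField N], WeierstrassCurve N → Prop}
    (H : TowW ℓ T A B d F₀ Q) : TowB ℓ T d ((A : ℤ) : 𝓞 F₀) ((B : ℤ) : 𝓞 F₀) Q := by
  intro n N L M _ _ _ _ _ _ _ _ _ _ _ _ hM hR W C hC
  refine H n N L M hM (fun v w hvw => ?_) W C ?_
  · obtain ⟨h1, h2⟩ := hR v w hvw
    refine ⟨h1, fun h3 => ?_⟩
    have h4 := h2 (by
      intro h4
      apply h3
      push_cast
      exact h4)
    rw [map_intCast, map_intCast] at h4
    exact h4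
  · rw [hC]
    show cv (algebraMap F₀ L (algebraMap (𝓞 F₀) F₀ ((A : ℤ) : 𝓞 F₀)))
      (algebraMap F₀ L (algebraMap (𝓞 F₀) F₀ ((B : ℤ) : 𝓞 F₀))) = cv ((A : ℤ) : L) ((B : ℤ) : L)
    simp only [map_intCast]

/-- a point with `2 P = -P` -/
theorem tor_three {F : Type*} [Field F] [DecidableEq F] [CharZero F] (W : WeierstrassCurve F)
    {x y : F} (h : W.toAffine.Nonsingular x y) (hy : y ≠ W.toAffine.negY x y)
    (h1 : W.toAffine.addX x x (W.toAffine.slope x x y y) = x)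
    (h2 : W.toAffine.addY x x y (W.toAffine.slope x x y y) = W.toAffine.negY x y) :
    IsOfFinAddOrder (Affine.Point.some x y h) := by
  refine isOfFinAddOrder_iff_nsmul_eq_zero.2 ⟨3, by norm_num, ?_⟩
  have e : (3 : ℕ) • Affine.Point.some x y h =
      (Affine.Point.some x y h + Affine.Point.some x y h) + Affine.Point.some x y h := by
    rw [succ_nsmul, two_nsmul]
  rw [e, Affine.Point.add_self_of_Y_ne hy]
  exact Affine.Point.add_of_Y_eq h1 h2

theorem tor_one {F : Type*} [Field F] [DecidableEq F] [CharZero F] :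
    Tor (⟨0, 0, 0, ((0 : ℤ) : F), ((16 : ℤ) : F)⟩ : WeierstrassCurve F) 0 4 := by
  have hs : (⟨0, 0, 0, ((0 : ℤ) : F), ((16 : ℤ) : F)⟩ : WeierstrassCurve F).toAffine.Nonsingular
      0 4 := by
    rw [Affine.nonsingular_iff, Affine.equation_iff]
    refine ⟨by push_cast; norm_num, Or.inr ?_⟩
    norm_num
  refine ⟨hs, ?_⟩
  have hy : (4 : F) ≠ (⟨0, 0, 0, ((0 : ℤ) : F), ((16 : ℤ) : F)⟩ :
      WeierstrassCurve F).toAffine.negY 0 4 := by
    simp only [Affine.negY]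
    norm_num
  have hslope : (⟨0, 0, 0, ((0 : ℤ) : F), ((16 : ℤ) : F)⟩ : WeierstrassCurve F).toAffine.slope
      0 0 4 4 = 0 := by
    rw [Affine.slope_of_Y_ne rfl hy]
    push_cast
    norm_num
  refine tor_three _ hs hy ?_ ?_
  · rw [hslope]
    simp [Affine.addX]
  · rw [hslope]
    simp [Affine.addY, Affine.negAddY, Affine.negY, Affine.addX]

theorem tor_two {F : Type*} [Field F] [DecidableEq F] [CharZero F] :
    Tor (⟨0, 0, 0, ((-480 : ℤ) : F), ((4048 : ℤ) : F)⟩ : WeierstrassCurve F) 12 4 := by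
  have hs : (⟨0, 0, 0, ((-480 : ℤ) : F), ((4048 : ℤ) : F)⟩ :
      WeierstrassCurve F).toAffine.Nonsingular 12 4 := by
    rw [Affine.nonsingular_iff, Affine.equation_iff]
    refine ⟨by push_cast; norm_num, Or.inr ?_⟩
    norm_num
  refine ⟨hs, ?_⟩
  have hy : (4 : F) ≠ (⟨0, 0, 0, ((-480 : ℤ) : F), ((4048 : ℤ) : F)⟩ :
      WeierstrassCurve F).toAffine.negY 12 4 := by
    simp only [Affine.negY]
    norm_num
  have hslope : (⟨0, 0, 0, ((-480 : ℤ) : F), ((4048 : ℤ) : F)⟩ :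
      WeierstrassCurve F).toAffine.slope 12 12 4 4 = -6 := by
    rw [Affine.slope_of_Y_ne rfl hy]
    simp only [Affine.negY]
    push_cast
    norm_num
  refine tor_three _ hs hy ?_ ?_
  · rw [hslope]
    simp only [Affine.addX]
    norm_num
  · rw [hslope]
    simp only [Affine.addY, Affine.negAddY, Affine.negY, Affine.addX]
    norm_num

/-- the invariants -/
theorem j_rel {L : Type*} [Field L] [CharZero L] {α β : L} {A B J : ℤ}
    (hj : 6912 * A ^ 3 = J * (4 * A ^ 3 + 27 * B ^ 2)) (C : VariableChange L)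
    (hC : C • cv α β = cv (A : L) (B : L)) :
    6912 * α ^ 3 = J * (4 * α ^ 3 + 27 * β ^ 2) := by
  have h4 := congrArg WeierstrassCurve.c₄ hC
  have h6 := congrArg WeierstrassCurve.c₆ hC
  rw [variableChange_c₄, cv_c₄, cv_c₄] at h4
  rw [variableChange_c₆, cv_c₆, cv_c₆] at h6
  have hu0 : (↑C.u⁻¹ : L) ≠ 0 := C.u⁻¹.ne_zero
  obtain ⟨u, hu⟩ : ∃ u : L, u = (↑C.u⁻¹ : L) := ⟨_, rfl⟩
  rw [← hu] at h4 h6 hu0
  have hA : (A : L) = u ^ 4 * α := by linear_combination (1 / 48) * h4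
  have hB : (B : L) = u ^ 6 * β := by linear_combination (1 / 864) * h6
  have hj' : 6912 * (A : L) ^ 3 = J * (4 * (A : L) ^ 3 + 27 * (B : L) ^ 2) := by
    exact_mod_cast congrArg (Int.cast : ℤ → L) hj
  rw [hA, hB] at hj'
  have h12 : u ^ 12 ≠ 0 := pow_ne_zero 12 hu0
  apply mul_left_cancel₀ h12
  linear_combination hj'

/-- **The combination of the theorems.** -/
theorem thmY_of {A B J d : ℤ} {P₁ P₂ : Prop} {S₁ S₂ : Finset ℕ}
    {Q : ∀ (_ℓ : ℕ) (N : Type) [Field N] [NumberField N], WeierstrassCurve N → Prop}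
    (hj : 6912 * A ^ 3 = J * (4 * A ^ 3 + 27 * B ^ 2)) (hJ : (J, d) ∈ thirteen)
    (hP₁ : P₁) (hP₂ : P₂) (H1 : ThmX 0 16 (-3) P₁ S₁ Q) (H2 : ThmX (-480) 4048 (-3) P₂ S₂ Q)
    (H : ThmB A B d Q) : ThmY A B d S₁ S₂ Q := by
  intro K N₀ F₀ L₀ _ _ _ _ _ _ _ _ _ _ _ _ _ _ hK hz hN x y ht hxy α β hαβ hC₀ hg
  have hL₀ : ∀ J' : ℤ, 6912 * (algebraMap F₀ L₀ (algebraMap N₀ F₀ α)) ^ 3 =
      J' * (4 * (algebraMap F₀ L₀ (algebraMap N₀ F₀ α)) ^ 3 +
        27 * (algebraMap F₀ L₀ (algebraMap N₀ F₀ β)) ^ 2) →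
      4 * (algebraMap F₀ L₀ (algebraMap N₀ F₀ α)) ^ 3 +
        27 * (algebraMap F₀ L₀ (algebraMap N₀ F₀ β)) ^ 2 ≠ 0 → J = J' := by
    intro J' h1 h2
    obtain ⟨C₀, hC₀⟩ := hC₀
    have h3 := j_rel hj C₀ hC₀
    rw [h1] at h3
    have h4 := mul_right_cancel₀ h2 h3
    exact_mod_cast h4.symm
  have hd : ∀ J' : ℤ, J = J' → (J' = 0 ∨ J' = -12288000) → d = -3 := by
    rintro J' rfl h
    simp only [thirteen, List.mem_cons, Prod.mk.injEq, List.not_mem_nil, or_false] at hJ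
    omega
  have hdec : DecidableEq F₀ := Classical.decEq F₀
  by_cases hs1 : α = 0 ∧ β = 16 ∧ finrank K F₀ = 1
  · obtain ⟨h1, h2, h3⟩ := hs1
    have hd3 : d = -3 := by
      refine hd 0 (hL₀ 0 ?_ ?_) (Or.inl rfl)
      · rw [h1]
        simp
      · rw [h1, h2]
        simp
    subst hd3
    have htop : IntermediateField.adjoin K {(0 : F₀), 4} = ⊤ := by
      have h4 := IntermediateField.bot_eq_top_iff_finrank_eq_one.2 h3
      rw [eq_top_iff, ← h4]
      exact bot_le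
    obtain ⟨S, T, hS, hST⟩ := H1 K N₀ F₀ F₀ hK hz hN 0 4 tor_one htop
      (fun hn => absurd ⟨hP₁, h3⟩ hn)
    refine ⟨S, T, fun _ => hS ⟨hP₁, h3⟩, fun h => ?_, fun ℓ hℓ hℓS => ?_⟩
    · exfalso
      rw [h1] at h
      have h5 := congrArg (algebraMap (𝓞 N₀) N₀) h.1
      simp only [map_zero, map_neg, map_ofNat] at h5
      norm_num at h5
    · have h5 := (hST ℓ hℓ hℓS).towB
      rw [h1, h2, map_zero, map_ofNat]
      exact_mod_cast h5
  · by_cases hs2 : α = -480 ∧ β = 4048 ∧ finrank K F₀ = 1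
    · obtain ⟨h1, h2, h3⟩ := hs2
      have hd3 : d = -3 := by
        refine hd (-12288000) (hL₀ (-12288000) ?_ ?_) (Or.inr rfl)
        · rw [h1, h2]
          push_cast
          simp only [map_ofNat]
          norm_num
        · rw [h1, h2]
          push_cast
          simp only [map_ofNat]
          norm_num
      subst hd3
      have htop : IntermediateField.adjoin K {(12 : F₀), 4} = ⊤ := by
        have h4 := IntermediateField.bot_eq_top_iff_finrank_eq_one.2 h3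
        rw [eq_top_iff, ← h4]
        exact bot_le
      obtain ⟨S, T, hS, hST⟩ := H2 K N₀ F₀ F₀ hK hz hN 12 4 tor_two htop
        (fun hn => absurd ⟨hP₂, h3⟩ hn)
      refine ⟨S, T, fun h => absurd h hs1, fun h => hS ⟨hP₂, h3⟩, fun ℓ hℓ hℓS => ?_⟩
      have h5 := (hST ℓ hℓ hℓS).towB
      rw [h1, h2, map_neg, map_ofNat, map_ofNat]
      exact_mod_cast h5
    · obtain ⟨S, hS⟩ := H K N₀ F₀ L₀ hK hz hN x y ht hxy α β hαβ hC₀ (hg fun h => by
        obtain ⟨h1 | h1, h2⟩ := h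
        · exact hs1 ⟨h1.1, h1.2, h2⟩
        · exact hs2 ⟨h1.1, h1.2, h2⟩)
      exact ⟨S, ∅, fun h => absurd h hs1, fun h => absurd h hs2, hS⟩

end Pool.Agent.Lib.MP_1a91b9_nuI
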