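import Pool.Agent.Lib.MP_1a91b9_nuI.Ta.TowW

/-!
# Good reduction above `ℓ` in towers with ramification above `ℓ`: coefficients in the field
-/

set_option autoImplicit false

namespace Pool.Agent.Lib.MP_1a91b9_nuI

open NumberField IsDedekindDomain WeierstrassCurve WithZero Pool.Agent.Lib.MP_1a91b9_nuX.GM
open Pool.Agent.Lib.MP_1a91b9_nuX Pool.Agent.Lib.MP_1a91b9_nuX.TM

/-- **Good reduction above `ℓ`.** -/
theorem good_tower_b {F₀ N L M : Type*} [Field F₀] [NumberField F₀] [Field N] [NumberField N]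
    [Field L] [NumberField L] [Field M] [NumberField M] [Algebra F₀ L] [Algebra N L] [Algebra L M]
    [Algebra F₀ M] [IsScalarTower F₀ L M] [IsGalois F₀ M] {ℓ n : ℕ} (hℓ : ℓ.Prime) (h5 : 5 ≤ ℓ)
    (hM : Module.finrank F₀ M = ℓ ^ n)
    (hun : ∀ v : HeightOneSpectrum (𝓞 F₀), (ℓ : 𝓞 F₀) ∉ v.asIdeal ^ 2)
    {A B : N} {j : ℤ} (hj : 6912 * A ^ 3 = j * (4 * A ^ 3 + 27 * B ^ 2)) {a b : L}
    (hd : ∀ w : HeightOneSpectrum (𝓞 L), (ℓ : 𝓞 L) ∈ w.asIdeal →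
      w.valuation L (4 * a ^ 3 + 27 * b ^ 2) = 1) (C : VariableChange L)
    (hC : C • (cv A B).baseChange L = cv a b) (v : HeightOneSpectrum (𝓞 N))
    (hv : (ℓ : 𝓞 N) ∈ v.asIdeal) :
    ∃ C₀ : VariableChange (v.adicCompletion N),
      GoodW (Valued.v : Valuation (v.adicCompletion N) ℤᵐ⁰)
        (C₀ • (sw A B).baseChange (v.adicCompletion N)) := by
  obtain ⟨w, hP⟩ := exists_above_w (L := L) v
  have hℓw : (ℓ : 𝓞 L) ∈ w.asIdeal := by
    have h1 := hv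
    rw [hP.over] at h1
    have h2 : algebraMap (𝓞 N) (𝓞 L) (ℓ : 𝓞 N) ∈ w.asIdeal := h1
    rwa [map_natCast] at h2
  have h12 : ¬ ℓ ∣ 12 := by
    intro h2
    have h3 : ℓ ∣ 2 ^ 2 * 3 := h2
    rcases (Nat.Prime.dvd_mul hℓ).1 h3 with h4 | h4
    · have := Nat.le_of_dvd (by norm_num) (hℓ.dvd_of_dvd_pow h4)
      omega
    · have := Nat.le_of_dvd (by norm_num) h4
      omega
  have he : (v.asIdeal.ramificationIdx' w.asIdeal).Coprime 12 := by
    have h1 := ram_dvd (M := M) hℓ hun w hℓw v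
    rw [hM] at h1
    refine Nat.Coprime.coprime_dvd_left h1 (Nat.Coprime.pow_left n ?_)
    rwa [Nat.Prime.coprime_iff_not_dvd hℓ]
  have h6 : (6 : 𝓞 N) ∉ v.asIdeal := by
    have h1 : ¬ (ℓ : ℤ) ∣ 6 := by
      intro h
      apply h12
      have h2 : (ℓ : ℤ) ∣ ((12 : ℕ) : ℤ) := Dvd.dvd.trans h ⟨2, by norm_num⟩
      exact Int.natCast_dvd_natCast.1 h2
    have h2 := int_not_mem hℓ v hv h1
    exact_mod_cast h2
  exact good_desc_w hj v w he h6 C hC (hd w hℓw)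

end Pool.Agent.Lib.MP_1a91b9_nuI
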