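import Pool.Agent.Lib.MP_1a91b9_nuI.Fa.FamW
import Pool.Agent.Lib.MP_1a91b9_nuI.Fb.TowB

/-!
# Theorems on towers for a form of the curve over the base field: from the nine maximal orders to the
thirteen orders
-/

set_option autoImplicit false

namespace Pool.Agent.Lib.MP_1a91b9_nuI

open NumberField IsDedekindDomain WeierstrassCurve Module
open Pool.Agent.Lib.MP_1a91b9_nt (card_point_variableChange)

/-- The condition on the ramification and the numbers of points of `y² = x³ + a x + b`; `d` is the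
discriminant of the field of complex multiplication. -/
def RamB (ℓ : ℕ) (T : Finset ℕ) (d : ℤ) {F₀ : Type} [Field F₀] [NumberField F₀] (a b : 𝓞 F₀)
    (L : Type) [Field L] [NumberField L] [Algebra F₀ L] : Prop :=
  ∀ (v : HeightOneSpectrum (𝓞 F₀)) (w : HeightOneSpectrum (𝓞 L)),
    v.asIdeal.map (algebraMap (𝓞 F₀) (𝓞 L)) ≤ w.asIdeal ^ 2 →
      ((ℓ : 𝓞 F₀) ∈ v.asIdeal → ℓ ∉ T ∧ ℓ ≠ 2 ∧ IsSquare ((d : ℤ) : ZMod ℓ)) ∧
      (6 * (4 * a ^ 3 + 27 * b ^ 2) ∉ v.asIdeal →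
        ¬ ℓ ∣ Nat.card (⟨0, 0, 0, Ideal.Quotient.mk v.asIdeal a, Ideal.Quotient.mk v.asIdeal b⟩ :
          WeierstrassCurve (𝓞 F₀ ⧸ v.asIdeal)).toAffine.Point)

/-- The statement for towers and all the forms `W` of the curve `y² = x³ + a x + b` over `F₀`. -/
def TowB (ℓ : ℕ) (T : Finset ℕ) (d : ℤ) {F₀ : Type} [Field F₀] [NumberField F₀] (a b : 𝓞 F₀)
    (Q : ∀ (N : Type) [Field N] [NumberField N], WeierstrassCurve N → Prop) : Prop :=
  ∀ (n : ℕ) (N L M : Type) [Field N] [NumberField N] [Field L] [NumberField L] [Field M]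
    [NumberField M] [Algebra N L] [Algebra F₀ L] [Algebra L M] [Algebra F₀ M]
    [IsScalarTower F₀ L M] [IsGalois F₀ M], finrank F₀ M = ℓ ^ n → RamB ℓ T d a b L →
  ∀ (W : WeierstrassCurve N) (C : VariableChange L),
    C • W.baseChange L = ⟨0, 0, 0, algebraMap F₀ L a, algebraMap F₀ L b⟩ → Q N W

/-- The theorem on towers for the forms `y² = x³ + α x + β` of `y² = x³ + A x + B`. -/
def ThmB (A B d : ℤ)
    (Q : ∀ (_ℓ : ℕ) (N : Type) [Field N] [NumberField N], WeierstrassCurve N → Prop) : Prop :=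
  ∀ (K N₀ F₀ L₀ : Type) [Field K] [NumberField K] [Field N₀] [NumberField N₀] [Field F₀]
    [NumberField F₀] [Field L₀] [NumberField L₀] [DecidableEq L₀] [Algebra K F₀] [Algebra N₀ F₀]
    [Algebra K L₀] [Algebra F₀ L₀] [IsScalarTower K F₀ L₀], finrank ℚ K = 2 →
    (∃ z : K, z ^ 2 = (d : K)) →
    IntermediateField.adjoin N₀ (Set.range (algebraMap K F₀)) = ⊤ →
    ∀ x y : L₀, Tor (⟨0, 0, 0, ((A : ℤ) : L₀), ((B : ℤ) : L₀)⟩ : WeierstrassCurve L₀) x y →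
    IntermediateField.adjoin K {x, y} = ⊤ →
    ∀ α β : 𝓞 N₀, 4 * α ^ 3 + 27 * β ^ 2 ≠ 0 →
    (∃ C : VariableChange L₀, C • (⟨0, 0, 0, algebraMap F₀ L₀ (algebraMap N₀ F₀ α),
      algebraMap F₀ L₀ (algebraMap N₀ F₀ β)⟩ : WeierstrassCurve L₀) =
        ⟨0, 0, 0, ((A : ℤ) : L₀), ((B : ℤ) : L₀)⟩) →
    Lne (⟨0, 0, 0, (α : N₀), (β : N₀)⟩ : WeierstrassCurve N₀) →
    ∃ S : Finset ℕ, ∀ ℓ : ℕ, ℓ.Prime → ℓ ∉ S →
      TowB ℓ ∅ d (algebraMap (𝓞 N₀) (𝓞 F₀) α) (algebraMap (𝓞 N₀) (𝓞 F₀) β) (Q ℓ)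

theorem ThmB.imp {A B d : ℤ}
    {Q Q' : ∀ (_ℓ : ℕ) (N : Type) [Field N] [NumberField N], WeierstrassCurve N → Prop}
    (h : ∀ (ℓ : ℕ) (N : Type) [Field N] [NumberField N] (W : WeierstrassCurve N), Q ℓ N W →
      Q' ℓ N W) (H : ThmB A B d Q) : ThmB A B d Q' := by
  intro K N₀ F₀ L₀ _ _ _ _ _ _ _ _ _ _ _ _ _ _ hK hz hN x y ht hxy α β hαβ hC₀ hg
  obtain ⟨S, hS⟩ := H K N₀ F₀ L₀ hK hz hN x y ht hxy α β hαβ hC₀ hg
  refine ⟨S, fun ℓ hℓ hℓS => ?_⟩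
  intro n N L M _ _ _ _ _ _ _ _ _ _ _ _ hM hR W C hC
  exact h ℓ N W (hS ℓ hℓ hℓS n N L M hM hR W C hC)

/-- a nonzero algebraic integer divides a nonzero integer -/
theorem exists_dvd_int {N : Type*} [Field N] [NumberField N] {x : 𝓞 N} (hx : x ≠ 0) :
    ∃ m : ℤ, m ≠ 0 ∧ x ∣ (m : 𝓞 N) := by
  refine ⟨(Ideal.absNorm (Ideal.span {x}) : ℤ), ?_, ?_⟩
  · rw [Ne, Int.natCast_eq_zero, Ideal.absNorm_eq_zero_iff, Ideal.span_singleton_eq_bot]
    exact hx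
  · have h := Ideal.absNorm_mem (Ideal.span {x})
    rw [Ideal.mem_span_singleton] at h
    exact_mod_cast h

section
variable {a' b' a b : ℤ} {n : ℕ} {j' j d : ℤ}

/-- a curve `y² = x³ + A x + B` over `N` which becomes isomorphic over `L` to the member `D₀` of the
family is a member of the family -/
theorem Four.clsB (h : Four a' b' a b n j' j d) {N L : Type*} [Field N] [CharZero N] [Field L]
    [Algebra N L] (A B : N) (C : VariableChange L) (D₀ : L) (hD₀ : D₀ ≠ 0)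
    (hC : C • (cv A B).baseChange L = cv (a' * D₀ ^ 2) (b' * D₀ ^ 3)) :
    ∃ D : N, D ≠ 0 ∧ A = a' * D ^ 2 ∧ B = b' * D ^ 3 ∧
      ∃ C' : VariableChange L, C' • (cv (a * D ^ 2) (b * D ^ 3)).baseChange L =
        cv (a * D₀ ^ 2) (b * D₀ ^ 3) := by
  have hL : CharZero L := charZero_of_injective_algebraMap (algebraMap N L).injective
  obtain ⟨ha', hb'⟩ := h.ne
  have hcv : (cv A B).baseChange L = cv (algebraMap N L A) (algebraMap N L B) := cv_map _ A B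
  rw [hcv] at hC
  have h4 := congrArg WeierstrassCurve.c₄ hC
  have h6 := congrArg WeierstrassCurve.c₆ hC
  rw [variableChange_c₄, cv_c₄, cv_c₄] at h4
  rw [variableChange_c₆, cv_c₆, cv_c₆] at h6
  have hu : (↑C.u⁻¹ : L) * (↑C.u : L) = 1 := C.u.inv_mul
  have hu0 : (↑C.u : L) ≠ 0 := C.u.ne_zero
  have hA : algebraMap N L A = a' * ((↑C.u : L) ^ 2 * D₀) ^ 2 := by
    have h5 : ((↑C.u⁻¹ : L) * (↑C.u : L)) ^ 4 = 1 := by rw [hu, one_pow]
    linear_combination (-(1 / 48) * (↑C.u : L) ^ 4) * h4 - algebraMap N L A * h5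
  have hB : algebraMap N L B = b' * ((↑C.u : L) ^ 2 * D₀) ^ 3 := by
    have h5 : ((↑C.u⁻¹ : L) * (↑C.u : L)) ^ 6 = 1 := by rw [hu, one_pow]
    linear_combination (-(1 / 864) * (↑C.u : L) ^ 6) * h6 - algebraMap N L B * h5
  have haL : (a' : L) ≠ 0 := by exact_mod_cast ha'
  have hbL : (b' : L) ≠ 0 := by exact_mod_cast hb'
  have hE0 : (↑C.u : L) ^ 2 * D₀ ≠ 0 := mul_ne_zero (pow_ne_zero 2 hu0) hD₀
  obtain ⟨E, hE⟩ : ∃ E : L, E = (↑C.u : L) ^ 2 * D₀ := ⟨_, rfl⟩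
  rw [← hE] at hA hB hE0
  have hDL : algebraMap N L (a' * B / (b' * A)) = E := by
    rw [map_div₀, map_mul, map_mul, map_intCast, map_intCast, hA, hB]
    field_simp
  refine ⟨a' * B / (b' * A), ?_, ?_, ?_, ?_⟩
  · intro h0
    rw [h0, map_zero] at hDL
    exact hE0 hDL.symm
  · apply (algebraMap N L).injective
    rw [map_mul, map_pow, hDL, map_intCast, hA]
  · apply (algebraMap N L).injective
    rw [map_mul, map_pow, hDL, map_intCast, hB]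
  · refine ⟨⟨C.u, 0, 0, 0⟩, ?_⟩
    have e3 : (cv (a * (a' * B / (b' * A)) ^ 2) (b * (a' * B / (b' * A)) ^ 3)).baseChange L =
        cv (a * E ^ 2) (b * E ^ 3) := by
      rw [WeierstrassCurve.baseChange, cv_map, map_mul, map_mul, map_pow, map_pow, hDL,
        map_intCast, map_intCast]
    rw [e3, cv_scale, hE]
    have h5 : ((↑C.u⁻¹ : L) * (↑C.u : L)) ^ 4 = 1 := by rw [hu, one_pow]
    have h7 : ((↑C.u⁻¹ : L) * (↑C.u : L)) ^ 6 = 1 := by rw [hu, one_pow]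
    refine congrArg₂ cv ?_ ?_
    · linear_combination (a * D₀ ^ 2) * h5
    · linear_combination (b * D₀ ^ 3) * h7

/-- the data of the isogenous form with integral coefficients -/
theorem Four.intB (h : Four a' b' a b n j' j d) {N : Type*} [Field N] [NumberField N] (α β : 𝓞 N)
    (D : N) (hD : D ≠ 0) (hα : algebraMap (𝓞 N) N α = a' * D ^ 2)
    (hβ : algebraMap (𝓞 N) N β = b' * D ^ 3) (h0 : 4 * α ^ 3 + 27 * β ^ 2 ≠ 0) :
    ∃ (k : ℤ) (δ : 𝓞 N), k ≠ 0 ∧ algebraMap (𝓞 N) N δ = D * k ∧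
      (4 * α ^ 3 + 27 * β ^ 2) ∣ (k : 𝓞 N) := by
  obtain ⟨ha', hb'⟩ := h.ne
  have haN : (a' : N) ≠ 0 := by exact_mod_cast ha'
  have hbN : (b' : N) ≠ 0 := by exact_mod_cast hb'
  have hα0 : α ≠ 0 := by
    rintro rfl
    rw [map_zero] at hα
    exact mul_ne_zero haN (pow_ne_zero 2 hD) hα.symm
  obtain ⟨m₁, hm₁, c₁, hc₁⟩ := exists_dvd_int hα0
  obtain ⟨m₂, hm₂, hc₂⟩ := exists_dvd_int h0
  refine ⟨b' * m₁ * m₂, (a' : 𝓞 N) * β * c₁ * m₂, mul_ne_zero (mul_ne_zero hb' hm₁) hm₂, ?_, ?_⟩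
  · have e := congrArg (algebraMap (𝓞 N) N) hc₁
    rw [map_intCast, map_mul] at e
    rw [map_mul, map_mul, map_mul, map_intCast, map_intCast]
    push_cast
    rw [e, hβ, hα]
    ring
  · push_cast
    exact Dvd.dvd.mul_left hc₂ _

/-- the conditions for the curve and the isogenous curve -/
theorem Four.ramB (h : Four a' b' a b n j' j d) {ℓ : ℕ} {T : Finset ℕ} {F₀ : Type}
    [Field F₀] [NumberField F₀] (α β δ : 𝓞 F₀) (k : ℤ)
    (e1 : α * (k : 𝓞 F₀) ^ 2 = (a' : 𝓞 F₀) * δ ^ 2)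
    (e2 : β * (k : 𝓞 F₀) ^ 3 = (b' : 𝓞 F₀) * δ ^ 3) (e3 : (4 * α ^ 3 + 27 * β ^ 2) ∣ (k : 𝓞 F₀))
    {L : Type} [Field L] [NumberField L] [Algebra F₀ L] (hR : RamB ℓ T d α β L) :
    RamB ℓ T d ((a : 𝓞 F₀) * (δ * (k : 𝓞 F₀)) ^ 2) ((b : 𝓞 F₀) * (δ * (k : 𝓞 F₀)) ^ 3) L := by
  intro v w hvw
  obtain ⟨h1, h2⟩ := hR v w hvw
  refine ⟨h1, fun h3 => ?_⟩
  have hv : v.asIdeal.IsPrime := v.isPrime
  have h6 : (6 : 𝓞 F₀) ∉ v.asIdeal := by
    intro h6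
    exact h3 (Ideal.mul_mem_right _ _ h6)
  have hk : (k : 𝓞 F₀) ∉ v.asIdeal := by
    intro hk
    apply h3
    have e : 6 * (4 * ((a : 𝓞 F₀) * (δ * k) ^ 2) ^ 3 + 27 * (b * (δ * k) ^ 3) ^ 2) =
        6 * (4 * a ^ 3 + 27 * b ^ 2) * δ ^ 6 * k ^ 5 * k := by ring
    rw [e]
    exact Ideal.mul_mem_left _ _ hk
  have h4 : 4 * α ^ 3 + 27 * β ^ 2 ∉ v.asIdeal := by
    intro h4
    obtain ⟨c, hc⟩ := e3
    apply hk
    rw [hc]
    exact Ideal.mul_mem_right _ _ h4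
  have h5 : 6 * (4 * α ^ 3 + 27 * β ^ 2) ∉ v.asIdeal := by
    intro h5
    rcases hv.mem_or_mem h5 with h7 | h7
    · exact h6 h7
    · exact h4 h7
  have h8 := h2 h5
  have hm : v.asIdeal.IsMaximal := v.isMaximal
  let _ : Field (𝓞 F₀ ⧸ v.asIdeal) := Ideal.Quotient.field _
  have i2 : Finite (𝓞 F₀ ⧸ v.asIdeal) := Ideal.finiteQuotientOfFreeOfNeBot _ v.ne_bot
  have h6' : (6 : 𝓞 F₀ ⧸ v.asIdeal) ≠ 0 := by
    intro h0
    apply h6
    rw [← Ideal.Quotient.eq_zero_iff_mem, map_ofNat]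
    exact h0
  have hk' : (k : 𝓞 F₀ ⧸ v.asIdeal) ≠ 0 := by
    intro h0
    apply hk
    rw [← Ideal.Quotient.eq_zero_iff_mem, map_intCast]
    exact h0
  obtain ⟨D, hD⟩ : ∃ D : 𝓞 F₀ ⧸ v.asIdeal, D = Ideal.Quotient.mk v.asIdeal δ / k := ⟨_, rfl⟩
  have hDk : Ideal.Quotient.mk v.asIdeal δ = D * k := by
    rw [hD]
    field_simp
  have e1' := congrArg (Ideal.Quotient.mk v.asIdeal) e1
  have e2' := congrArg (Ideal.Quotient.mk v.asIdeal) e2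
  simp only [map_mul, map_pow, map_intCast] at e1' e2'
  have hα : Ideal.Quotient.mk v.asIdeal α = a' * D ^ 2 := by
    apply mul_right_cancel₀ (pow_ne_zero 2 hk')
    rw [e1', hDk]
    ring
  have hβ : Ideal.Quotient.mk v.asIdeal β = b' * D ^ 3 := by
    apply mul_right_cancel₀ (pow_ne_zero 3 hk')
    rw [e2', hDk]
    ring
  have hΔ : 4 * ((a' : 𝓞 F₀ ⧸ v.asIdeal) * D ^ 2) ^ 3 +
      27 * ((b' : 𝓞 F₀ ⧸ v.asIdeal) * D ^ 3) ^ 2 ≠ 0 := by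
    intro h0
    apply h4
    rw [← Ideal.Quotient.eq_zero_iff_mem]
    simp only [map_add, map_mul, map_pow, map_ofNat]
    rw [hα, hβ]
    exact h0
  have h9 := h.card h6' D hΔ
  have h10 : Nat.card (cv (a * (Ideal.Quotient.mk v.asIdeal δ * k) ^ 2)
      (b * (Ideal.Quotient.mk v.asIdeal δ * k) ^ 3)).toAffine.Point =
      Nat.card (cv (a * D ^ 2) (b * D ^ 3)).toAffine.Point := by
    rw [← card_point_variableChange (cv (a * D ^ 2) (b * D ^ 3))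
      (⟨(Units.mk0 _ hk')⁻¹, 0, 0, 0⟩ : VariableChange (𝓞 F₀ ⧸ v.asIdeal)), cv_scale, inv_inv,
      Units.val_mk0, hDk]
    congr 4 <;> ring
  have g1 : (⟨0, 0, 0, Ideal.Quotient.mk v.asIdeal (a * (δ * k) ^ 2),
      Ideal.Quotient.mk v.asIdeal (b * (δ * k) ^ 3)⟩ : WeierstrassCurve (𝓞 F₀ ⧸ v.asIdeal)) =
      cv (a * (Ideal.Quotient.mk v.asIdeal δ * k) ^ 2)
        (b * (Ideal.Quotient.mk v.asIdeal δ * k) ^ 3) := by
    simp only [map_mul, map_pow, map_intCast]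
    rfl
  rw [g1, h10, ← h9, ← hα, ← hβ]
  exact h8

end

end Pool.Agent.Lib.MP_1a91b9_nuI
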