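import Pool.Agent.Lib.MP_1a91b9_nuI.Fb.FamB
import Pool.Agent.Lib.MP_1a91b9_nuI.Top
import Pool.Agent.Lib.MP_1a91b9_nuY.UG.Top

/-!
# Towers over abelian fields for a form of the curve over the base field: the nine maximal orders
-/

set_option autoImplicit false

namespace Pool.Agent.Lib.MP_1a91b9_nuI

open NumberField IsDedekindDomain WeierstrassCurve Module

/-- the nine maximal orders -/
theorem nineB (A B J d : ℤ) (hAB : 4 * A ^ 3 + 27 * B ^ 2 ≠ 0)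
    (hj : 6912 * A ^ 3 = J * (4 * A ^ 3 + 27 * B ^ 2)) (hJ : (J, d) ∈ nine) :
    ThmB A B d Con12 := by
  intro K N₀ F₀ L₀ _ _ _ _ _ _ _ _ _ _ _ _ _ _ hK hz hN x y ht hxy α β h0 hC₀ hg
  obtain ⟨hns, ht⟩ := ht
  obtain ⟨C₀, hC₀⟩ := hC₀
  obtain ⟨S, hS⟩ := Pool.Agent.Lib.MP_1a91b9_nuY.UG.thmU K N₀ F₀ L₀ hK hJ hz hAB hj hN x y hns
    ht hxy h0 hC₀ hg
  refine ⟨S, fun ℓ hℓ hℓS => ?_⟩
  intro n N L M _ _ _ _ _ _ _ _ _ _ _ _ hM hR W C hC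
  obtain ⟨h1, h2⟩ := hS ℓ hℓ hℓS n N L M hM
    (fun v w hvw => ⟨fun hv => ((hR v w hvw).1 hv).2.2, (hR v w hvw).2⟩) W C hC
  refine ⟨h1, fun hf g g1 g2 => ?_⟩
  obtain ⟨h3, h4, h5, h6, h7⟩ := h2 hf
  exact ⟨h3 g g1 fun s hs => g2 s (by linarith), h4, h5, h6, h7⟩

end Pool.Agent.Lib.MP_1a91b9_nuI
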