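import Pool.Agent.Lib.MP_1a91b9_nuI.Fb.CombB
import Pool.Agent.Lib.MP_1a91b9_nuI.TopX

/-!
# Towers over abelian fields for a form of the curve over the base field: from the nine maximal orders to
the final theorems
-/

set_option autoImplicit false

namespace Pool.Agent.Lib.MP_1a91b9_nuI

open NumberField IsDedekindDomain WeierstrassCurve Module

/-- **The first question.** -/
theorem topB1 (H : ∀ A B J d : ℤ, 4 * A ^ 3 + 27 * B ^ 2 ≠ 0 →
      6912 * A ^ 3 = J * (4 * A ^ 3 + 27 * B ^ 2) → (J, d) ∈ nine → ThmB A B d Con12)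
    (A B J d : ℤ) (hAB : 4 * A ^ 3 + 27 * B ^ 2 ≠ 0)
    (hj : 6912 * A ^ 3 = J * (4 * A ^ 3 + 27 * B ^ 2)) (hJ : (J, d) ∈ thirteen) :
    ThmY A B d {3} {3} (fun _ => Con1) :=
  thmY_of hj hJ (Or.inl ⟨rfl, rfl⟩) (Or.inr ⟨rfl, rfl⟩)
    (topX1 0 16 0 (-3) (by norm_num) (by norm_num) (by simp [thirteen]))
    (topX1 (-480) 4048 (-12288000) (-3) (by norm_num) (by norm_num) (by simp [thirteen]))
    (allB1 (fun A B J d h1 h2 h3 => (H A B J d h1 h2 h3).imp fun _ _ _ _ _ h => h.1)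
      A B J d hAB hj hJ)

/-- **The second question.** -/
theorem topB2 (H : ∀ A B J d : ℤ, 4 * A ^ 3 + 27 * B ^ 2 ≠ 0 →
      6912 * A ^ 3 = J * (4 * A ^ 3 + 27 * B ^ 2) → (J, d) ∈ nine → ThmB A B d Con12)
    (A B J d : ℤ) (hAB : 4 * A ^ 3 + 27 * B ^ 2 ≠ 0)
    (hj : 6912 * A ^ 3 = J * (4 * A ^ 3 + 27 * B ^ 2)) (hJ : (J, d) ∈ thirteen) :
    ThmY A B d {3} {2, 3} Con2' := by
  obtain ⟨_, _, _, _, _, _, c, _⟩ := Pool.Agent.Lib.MP_1a91b9_nuX.UF.exists_cd (A := 0) (B := 1)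
    (J := 0) (by norm_num) (by norm_num) (by simp [Pool.Agent.Lib.MP_1a91b9_nuX.UF.jList]) 1
    one_ne_zero
  have h1 := topX2 0 16 0 (-3) (by norm_num) (by norm_num) (by simp [thirteen])
  have h2 := topX2 (-480) 4048 (-12288000) (-3) (by norm_num) (by norm_num) (by simp [thirteen])
  rw [if_pos rfl] at h1
  rw [if_neg (by norm_num)] at h2
  exact thmY_of hj hJ (Or.inl ⟨rfl, rfl⟩) (Or.inr ⟨rfl, rfl⟩) h1 h2
    (allB2 (fun A B J d h1 h2 h3 => (H A B J d h1 h2 h3).imp fun _ _ _ _ _ h => h.2)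
      A B J d hAB hj hJ)

end Pool.Agent.Lib.MP_1a91b9_nuI
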