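import Pool.Agent.Lib.MP_1a91b9_nuI.Fb.NineB
import Pool.Agent.Lib.MP_1a91b9_nuI.Fb.TopB
import Pool.Agent.Lib.MP_1a91b9_nuE.Top

/-!
# Towers over abelian fields for a form of the curve over the base field: the final theorems, without an
exceptional set for the ramification above `ℓ`
-/

set_option autoImplicit false

namespace Pool.Agent.Lib.MP_1a91b9_nuI

open NumberField IsDedekindDomain WeierstrassCurve Module
open Pool.Agent.Lib.MP_1a91b9_nuE (Spc specW)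

section
variable {A B : ℤ} (hs : Spc A B) (K N₀ F₀ : Type) [Field K] [NumberField K] [Field N₀]
    [NumberField N₀] [Field F₀] [NumberField F₀] [Algebra K F₀] [Algebra N₀ F₀]
    (hK : finrank ℚ K = 2) (hd : ∃ w : K, w ^ 2 = ((-3 : ℤ) : K)) (h1 : finrank K F₀ = 1)
    (hN : IntermediateField.adjoin N₀ (Set.range (algebraMap K F₀)) = ⊤)

include hs hK hd h1 hN

/-- the two curves over `ℚ(√-3)`, first question -/
theorem spc_W1 {ℓ : ℕ} (hℓ : ℓ.Prime) (h3 : ℓ ≠ 3) : TowW ℓ ∅ A B (-3) F₀ Con1 := by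
  have hdec : DecidableEq F₀ := Classical.decEq F₀
  rcases hs with ⟨rfl, rfl⟩ | ⟨rfl, rfl⟩
  · have htop : IntermediateField.adjoin K {(0 : F₀), 4} = ⊤ := by
      rw [eq_top_iff, ← IntermediateField.bot_eq_top_iff_finrank_eq_one.2 h1]
      exact bot_le
    have hJ : ((0 : ℤ), (-3 : ℤ)) ∈ thirteen := by simp [thirteen]
    obtain ⟨S, hS1, hS2⟩ := topV1 0 16 0 (-3) (by norm_num) (by norm_num) hJ K N₀ F₀ F₀ hK hd hN
      0 4 tor_one htop (fun hn => absurd ⟨Or.inl ⟨rfl, rfl⟩, h1⟩ hn)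
    refine specW hJ K N₀ F₀ hK hd (by norm_num) hN Con1 (fun _ _ _ _ h => h.1)
      (Or.inl ⟨rfl, rfl⟩) h1 hℓ h3 (hS2 ℓ hℓ ?_)
    rw [hS1 ⟨Or.inl ⟨rfl, rfl⟩, h1⟩, Finset.mem_singleton]
    exact h3
  · have htop : IntermediateField.adjoin K {(12 : F₀), 4} = ⊤ := by
      rw [eq_top_iff, ← IntermediateField.bot_eq_top_iff_finrank_eq_one.2 h1]
      exact bot_le
    have hJ : ((-12288000 : ℤ), (-3 : ℤ)) ∈ thirteen := by simp [thirteen]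
    obtain ⟨S, hS1, hS2⟩ := topV1 (-480) 4048 (-12288000) (-3) (by norm_num) (by norm_num) hJ K N₀
      F₀ F₀ hK hd hN 12 4 tor_two htop (fun hn => absurd ⟨Or.inr ⟨rfl, rfl⟩, h1⟩ hn)
    refine specW hJ K N₀ F₀ hK hd (by norm_num) hN Con1 (fun _ _ _ _ h => h.1)
      (Or.inr ⟨rfl, rfl⟩) h1 hℓ h3 (hS2 ℓ hℓ ?_)
    rw [hS1 ⟨Or.inr ⟨rfl, rfl⟩, h1⟩, Finset.mem_singleton]
    exact h3

/-- the two curves over `ℚ(√-3)`, second question -/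
theorem spc_W2 {ℓ : ℕ} (hℓ : ℓ.Prime) (h3 : ℓ ≠ 3) (h2 : ℓ = 2 → A = 0) :
    TowW ℓ ∅ A B (-3) F₀ (Con2' ℓ) := by
  obtain ⟨_, _, _, _, _, _, c, _⟩ := Pool.Agent.Lib.MP_1a91b9_nuX.UF.exists_cd (A := 0) (B := 1)
    (J := 0) (by norm_num) (by norm_num) (by simp [Pool.Agent.Lib.MP_1a91b9_nuX.UF.jList]) 1
    one_ne_zero
  have hdec : DecidableEq F₀ := Classical.decEq F₀
  rcases hs with ⟨rfl, rfl⟩ | ⟨rfl, rfl⟩
  · have htop : IntermediateField.adjoin K {(0 : F₀), 4} = ⊤ := by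
      rw [eq_top_iff, ← IntermediateField.bot_eq_top_iff_finrank_eq_one.2 h1]
      exact bot_le
    have hJ : ((0 : ℤ), (-3 : ℤ)) ∈ thirteen := by simp [thirteen]
    obtain ⟨S, hS1, hS2⟩ := topV2 0 16 0 (-3) (by norm_num) (by norm_num) hJ K N₀ F₀ F₀ hK hd hN
      0 4 tor_one htop (fun hn => absurd ⟨Or.inl ⟨rfl, rfl⟩, h1⟩ hn)
    refine specW hJ K N₀ F₀ hK hd (by norm_num) hN (Con2' ℓ) (fun _ _ _ _ h => h.2)
      (Or.inl ⟨rfl, rfl⟩) h1 hℓ h3 (hS2 ℓ hℓ ?_)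
    rw [hS1 ⟨Or.inl ⟨rfl, rfl⟩, h1⟩, if_pos rfl, Finset.mem_singleton]
    exact h3
  · have htop : IntermediateField.adjoin K {(12 : F₀), 4} = ⊤ := by
      rw [eq_top_iff, ← IntermediateField.bot_eq_top_iff_finrank_eq_one.2 h1]
      exact bot_le
    have hJ : ((-12288000 : ℤ), (-3 : ℤ)) ∈ thirteen := by simp [thirteen]
    obtain ⟨S, hS1, hS2⟩ := topV2 (-480) 4048 (-12288000) (-3) (by norm_num) (by norm_num) hJ K N₀
      F₀ F₀ hK hd hN 12 4 tor_two htop (fun hn => absurd ⟨Or.inr ⟨rfl, rfl⟩, h1⟩ hn)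
    refine specW hJ K N₀ F₀ hK hd (by norm_num) hN (Con2' ℓ) (fun _ _ _ _ h => h.2)
      (Or.inr ⟨rfl, rfl⟩) h1 hℓ h3 (hS2 ℓ hℓ ?_)
    rw [hS1 ⟨Or.inr ⟨rfl, rfl⟩, h1⟩, if_neg (by norm_num), Finset.mem_insert,
      Finset.mem_singleton, not_or]
    exact ⟨fun h => absurd (h2 h) (by norm_num), h3⟩

end

/-- The theorem on towers for the forms `y² = x³ + α x + β` of `y² = x³ + A x + B`; for the curves
`y² = x³ + 16` and `y² = x³ - 480 x + 4048` over `K` there is no hypothesis on the L-function and the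
exceptional set is `S₁`, `S₂`. -/
def ThmZ (A B d : ℤ) (S₁ S₂ : Finset ℕ)
    (Q : ∀ (_ℓ : ℕ) (N : Type) [Field N] [NumberField N], WeierstrassCurve N → Prop) : Prop :=
  ∀ (K N₀ F₀ L₀ : Type) [Field K] [NumberField K] [Field N₀] [NumberField N₀] [Field F₀]
    [NumberField F₀] [Field L₀] [NumberField L₀] [DecidableEq L₀] [Algebra K F₀] [Algebra N₀ F₀]
    [Algebra K L₀] [Algebra F₀ L₀] [IsScalarTower K F₀ L₀], finrank ℚ K = 2 →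
    (∃ z : K, z ^ 2 = (d : K)) →
    IntermediateField.adjoin N₀ (Set.range (algebraMap K F₀)) = ⊤ →
    ∀ x y : L₀, Tor (⟨0, 0, 0, ((A : ℤ) : L₀), ((B : ℤ) : L₀)⟩ : WeierstrassCurve L₀) x y →
    IntermediateField.adjoin K {x, y} = ⊤ →
    ∀ α β : 𝓞 N₀, 4 * α ^ 3 + 27 * β ^ 2 ≠ 0 →
    (∃ C : VariableChange L₀, C • (⟨0, 0, 0, algebraMap F₀ L₀ (algebraMap N₀ F₀ α),
      algebraMap F₀ L₀ (algebraMap N₀ F₀ β)⟩ : WeierstrassCurve L₀) =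
        ⟨0, 0, 0, ((A : ℤ) : L₀), ((B : ℤ) : L₀)⟩) →
    (¬ (((α = 0 ∧ β = 16) ∨ (α = -480 ∧ β = 4048)) ∧ finrank K F₀ = 1) →
      Lne (⟨0, 0, 0, (α : N₀), (β : N₀)⟩ : WeierstrassCurve N₀)) →
    ∃ S : Finset ℕ, (α = 0 ∧ β = 16 ∧ finrank K F₀ = 1 → S = S₁) ∧
      (α = -480 ∧ β = 4048 ∧ finrank K F₀ = 1 → S = S₂) ∧
      ∀ ℓ : ℕ, ℓ.Prime → ℓ ∉ S →
        TowB ℓ ∅ d (algebraMap (𝓞 N₀) (𝓞 F₀) α) (algebraMap (𝓞 N₀) (𝓞 F₀) β) (Q ℓ)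

/-- **The combination of the theorems.** -/
theorem thmZ_of {A B J d : ℤ} {S₁ S₂ : Finset ℕ}
    {Q : ∀ (_ℓ : ℕ) (N : Type) [Field N] [NumberField N], WeierstrassCurve N → Prop}
    (hj : 6912 * A ^ 3 = J * (4 * A ^ 3 + 27 * B ^ 2)) (hJ : (J, d) ∈ thirteen)
    (H1 : ∀ (K N₀ F₀ : Type) [Field K] [NumberField K] [Field N₀] [NumberField N₀] [Field F₀]
      [NumberField F₀] [Algebra K F₀] [Algebra N₀ F₀], finrank ℚ K = 2 →
      (∃ z : K, z ^ 2 = ((-3 : ℤ) : K)) → finrank K F₀ = 1 →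
      IntermediateField.adjoin N₀ (Set.range (algebraMap K F₀)) = ⊤ →
      ∀ ℓ : ℕ, ℓ.Prime → ℓ ∉ S₁ → TowW ℓ ∅ 0 16 (-3) F₀ (Q ℓ))
    (H2 : ∀ (K N₀ F₀ : Type) [Field K] [NumberField K] [Field N₀] [NumberField N₀] [Field F₀]
      [NumberField F₀] [Algebra K F₀] [Algebra N₀ F₀], finrank ℚ K = 2 →
      (∃ z : K, z ^ 2 = ((-3 : ℤ) : K)) → finrank K F₀ = 1 →
      IntermediateField.adjoin N₀ (Set.range (algebraMap K F₀)) = ⊤ →
      ∀ ℓ : ℕ, ℓ.Prime → ℓ ∉ S₂ → TowW ℓ ∅ (-480) 4048 (-3) F₀ (Q ℓ))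
    (H : ThmB A B d Q) : ThmZ A B d S₁ S₂ Q := by
  intro K N₀ F₀ L₀ _ _ _ _ _ _ _ _ _ _ _ _ _ _ hK hz hN x y ht hxy α β hαβ hC₀ hg
  have hL₀ : ∀ J' : ℤ, 6912 * (algebraMap F₀ L₀ (algebraMap N₀ F₀ α)) ^ 3 =
      J' * (4 * (algebraMap F₀ L₀ (algebraMap N₀ F₀ α)) ^ 3 +
        27 * (algebraMap F₀ L₀ (algebraMap N₀ F₀ β)) ^ 2) →
      4 * (algebraMap F₀ L₀ (algebraMap N₀ F₀ α)) ^ 3 +
        27 * (algebraMap F₀ L₀ (algebraMap N₀ F₀ β)) ^ 2 ≠ 0 → J = J' := by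
    intro J' h1 h2
    obtain ⟨C₀, hC₀⟩ := hC₀
    have h3 := j_rel hj C₀ hC₀
    rw [h1] at h3
    have h4 := mul_right_cancel₀ h2 h3
    exact_mod_cast h4.symm
  have hd : ∀ J' : ℤ, J = J' → (J' = 0 ∨ J' = -12288000) → d = -3 := by
    rintro J' rfl h
    simp only [thirteen, List.mem_cons, Prod.mk.injEq, List.not_mem_nil, or_false] at hJ
    omega
  by_cases hs1 : α = 0 ∧ β = 16 ∧ finrank K F₀ = 1
  · obtain ⟨h1, h2, h3⟩ := hs1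
    have hd3 : d = -3 := by
      refine hd 0 (hL₀ 0 ?_ ?_) (Or.inl rfl)
      · rw [h1]
        simp
      · rw [h1, h2]
        simp
    subst hd3
    refine ⟨S₁, fun _ => rfl, fun h => ?_, fun ℓ hℓ hℓS => ?_⟩
    · exfalso
      rw [h1] at h
      have h5 := congrArg (algebraMap (𝓞 N₀) N₀) h.1
      simp only [map_zero, map_neg, map_ofNat] at h5
      norm_num at h5
    · have h5 := (H1 K N₀ F₀ hK hz h3 hN ℓ hℓ hℓS).towB
      rw [h1, h2, map_zero, map_ofNat]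
      exact_mod_cast h5
  · by_cases hs2 : α = -480 ∧ β = 4048 ∧ finrank K F₀ = 1
    · obtain ⟨h1, h2, h3⟩ := hs2
      have hd3 : d = -3 := by
        refine hd (-12288000) (hL₀ (-12288000) ?_ ?_) (Or.inr rfl)
        · rw [h1, h2]
          push_cast
          simp only [map_ofNat]
          norm_num
        · rw [h1, h2]
          push_cast
          simp only [map_ofNat]
          norm_num
      subst hd3
      refine ⟨S₂, fun h => absurd h hs1, fun _ => rfl, fun ℓ hℓ hℓS => ?_⟩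
      have h5 := (H2 K N₀ F₀ hK hz h3 hN ℓ hℓ hℓS).towB
      rw [h1, h2, map_neg, map_ofNat, map_ofNat]
      exact_mod_cast h5
    · obtain ⟨S, hS⟩ := H K N₀ F₀ L₀ hK hz hN x y ht hxy α β hαβ hC₀ (hg fun h => by
        obtain ⟨h1 | h1, h2⟩ := h
        · exact hs1 ⟨h1.1, h1.2, h2⟩
        · exact hs2 ⟨h1.1, h1.2, h2⟩)
      exact ⟨S, fun h => absurd h hs1, fun h => absurd h hs2, hS⟩

/-- **The first question.** -/
theorem topZ1 (A B J d : ℤ) (hAB : 4 * A ^ 3 + 27 * B ^ 2 ≠ 0)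
    (hj : 6912 * A ^ 3 = J * (4 * A ^ 3 + 27 * B ^ 2)) (hJ : (J, d) ∈ thirteen) :
    ThmZ A B d {3} {3} (fun _ => Con1) :=
  thmZ_of hj hJ
    (fun K N₀ F₀ _ _ _ _ _ _ _ _ hK hz h1 hN _ hℓ h => spc_W1 (Or.inl ⟨rfl, rfl⟩) K N₀ F₀ hK hz
      h1 hN hℓ (by simpa using h))
    (fun K N₀ F₀ _ _ _ _ _ _ _ _ hK hz h1 hN _ hℓ h => spc_W1 (Or.inr ⟨rfl, rfl⟩) K N₀ F₀ hK hz
      h1 hN hℓ (by simpa using h))
    (allB1 (fun A B J d h1 h2 h3 => (nineB A B J d h1 h2 h3).imp fun _ _ _ _ _ h => h.1)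
      A B J d hAB hj hJ)

/-- **The second question.** -/
theorem topZ2 (A B J d : ℤ) (hAB : 4 * A ^ 3 + 27 * B ^ 2 ≠ 0)
    (hj : 6912 * A ^ 3 = J * (4 * A ^ 3 + 27 * B ^ 2)) (hJ : (J, d) ∈ thirteen) :
    ThmZ A B d {3} {2, 3} Con2' := by
  obtain ⟨_, _, _, _, _, _, c, _⟩ := Pool.Agent.Lib.MP_1a91b9_nuX.UF.exists_cd (A := 0) (B := 1)
    (J := 0) (by norm_num) (by norm_num) (by simp [Pool.Agent.Lib.MP_1a91b9_nuX.UF.jList]) 1
    one_ne_zero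
  exact thmZ_of hj hJ
    (fun K N₀ F₀ _ _ _ _ _ _ _ _ hK hz h1 hN _ hℓ h => spc_W2 (Or.inl ⟨rfl, rfl⟩) K N₀ F₀ hK hz
      h1 hN hℓ (by simpa using h) (fun _ => rfl))
    (fun K N₀ F₀ _ _ _ _ _ _ _ _ hK hz h1 hN _ hℓ h => by
      rw [Finset.mem_insert, Finset.mem_singleton, not_or] at h
      exact spc_W2 (Or.inr ⟨rfl, rfl⟩) K N₀ F₀ hK hz h1 hN hℓ h.2 (fun h' => absurd h' h.1))
    (allB2 (fun A B J d h1 h2 h3 => (nineB A B J d h1 h2 h3).imp fun _ _ _ _ _ h => h.2)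
      A B J d hAB hj hJ)

end Pool.Agent.Lib.MP_1a91b9_nuI
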