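import Pool.Agent.Lib.MP_1a91b9_nuI.Fb.FamB

/-!
# Theorems on towers for a form of the curve over the base field: the transfer to an isogenous form
-/

set_option autoImplicit false

namespace Pool.Agent.Lib.MP_1a91b9_nuI

open NumberField IsDedekindDomain WeierstrassCurve Module

section
variable {a' b' a b : ℤ} {n : ℕ} {j' j d : ℤ}

/-- the transfer for the towers -/
theorem Four.towB (h : Four a' b' a b n j' j d) {ℓ : ℕ} {T : Finset ℕ} {F₀ : Type} [Field F₀]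
    [NumberField F₀] (α β δ : 𝓞 F₀) (k : ℤ) (hk : k ≠ 0) (hδ : δ ≠ 0)
    (e1 : α * (k : 𝓞 F₀) ^ 2 = (a' : 𝓞 F₀) * δ ^ 2)
    (e2 : β * (k : 𝓞 F₀) ^ 3 = (b' : 𝓞 F₀) * δ ^ 3)
    (e3 : (4 * α ^ 3 + 27 * β ^ 2) ∣ (k : 𝓞 F₀))
    (Q Q' : ∀ (N : Type) [Field N] [NumberField N], WeierstrassCurve N → Prop)
    (hQ : ∀ (m : ℕ) (N L M : Type) [Field N] [NumberField N] [Field L] [NumberField L] [Field M]
      [NumberField M] [Algebra N L] [Algebra F₀ L] [Algebra L M] [Algebra F₀ M]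
      [IsScalarTower F₀ L M] [IsGalois F₀ M], finrank F₀ M = ℓ ^ m →
      ∀ (W : WeierstrassCurve N) (D : N), D ≠ 0 →
      (∃ C : VariableChange N, C • W = cv (a' * D ^ 2) (b' * D ^ 3)) →
      (∃ C : VariableChange L, C • (cv (a' * D ^ 2) (b' * D ^ 3)).baseChange L =
        cv (algebraMap F₀ L α) (algebraMap F₀ L β)) →
      Q N (cv (a * D ^ 2) (b * D ^ 3)) → Q' N W)
    (H : TowB ℓ T d ((a : 𝓞 F₀) * (δ * (k : 𝓞 F₀)) ^ 2)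
      ((b : 𝓞 F₀) * (δ * (k : 𝓞 F₀)) ^ 3) Q) :
    TowB ℓ T d α β Q' := by
  intro m N L M _ _ _ _ _ _ _ _ _ _ _ _ hM hR W C hC
  obtain ⟨D₀, hD₀⟩ : ∃ D₀ : L, D₀ = algebraMap F₀ L δ / k := ⟨_, rfl⟩
  have hkL : (k : L) ≠ 0 := by exact_mod_cast hk
  have hδF : algebraMap (𝓞 F₀) F₀ δ ≠ 0 := by
    intro h0
    exact hδ ((injective_iff_map_eq_zero _).1 (FaithfulSMul.algebraMap_injective (𝓞 F₀) F₀) δ h0)
  have hδL : algebraMap F₀ L (algebraMap (𝓞 F₀) F₀ δ) ≠ 0 := (map_ne_zero _).2 hδF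
  have hD0 : D₀ ≠ 0 := by
    rw [hD₀]
    exact div_ne_zero hδL hkL
  have hDk : algebraMap F₀ L (algebraMap (𝓞 F₀) F₀ δ) = D₀ * k := by
    rw [hD₀]
    field_simp
  have e1' := congrArg (fun x : 𝓞 F₀ => algebraMap F₀ L (algebraMap (𝓞 F₀) F₀ x)) e1
  have e2' := congrArg (fun x : 𝓞 F₀ => algebraMap F₀ L (algebraMap (𝓞 F₀) F₀ x)) e2
  simp only [map_mul, map_pow, map_intCast, hDk] at e1' e2'
  have hα : algebraMap F₀ L (algebraMap (𝓞 F₀) F₀ α) = a' * D₀ ^ 2 := by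
    apply mul_right_cancel₀ (pow_ne_zero 2 hkL)
    rw [e1']
    ring
  have hβ : algebraMap F₀ L (algebraMap (𝓞 F₀) F₀ β) = b' * D₀ ^ 3 := by
    apply mul_right_cancel₀ (pow_ne_zero 3 hkL)
    rw [e2']
    ring
  have hC' : C • W.baseChange L = cv (a' * D₀ ^ 2) (b' * D₀ ^ 3) := by
    rw [hC, ← hα, ← hβ]
    rfl
  obtain ⟨D, hD, ⟨C₁, hC₁⟩, -, C₂, hC₂⟩ := h.cls W C D₀ hD0 hC'
  refine hQ m N L M hM W D hD ⟨C₁, hC₁⟩ ?_
    (H m N L M hM (h.ramB α β δ k e1 e2 e3 hR) _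
      ((⟨(Units.mk0 (k : L) hkL)⁻¹, 0, 0, 0⟩ : VariableChange L) * C₂) ?_)
  · refine ⟨C * (C₁.map (algebraMap N L))⁻¹, ?_⟩
    have e : (cv ((a' : N) * D ^ 2) (b' * D ^ 3)).baseChange L =
        C₁.map (algebraMap N L) • W.baseChange L := by
      rw [← hC₁]
      exact (bc_change W (C₁ • W) C₁ rfl L).symm
    rw [e, mul_smul, inv_smul_smul]
    exact hC
  · rw [mul_smul, hC₂, cv_scale, inv_inv, Units.val_mk0]
    refine congrArg₂ cv ?_ ?_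
    · show _ = algebraMap F₀ L (algebraMap (𝓞 F₀) F₀ _)
      simp only [map_mul, map_pow, map_intCast, hDk]
      ring
    · show _ = algebraMap F₀ L (algebraMap (𝓞 F₀) F₀ _)
      simp only [map_mul, map_pow, map_intCast, hDk]
      ring

/-- the L-functions over `N₀` -/
theorem Four.lneB (h : Four a' b' a b n j' j d) {N : Type} [Field N] [NumberField N] {α β D : N}
    (hα : α = a' * D ^ 2) (hβ : β = b' * D ^ 3) {k : N} (hk : k ≠ 0) (hL : Lne (cv α β)) :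
    Lne (cv (a * (D * k * k) ^ 2) (b * (D * k * k) ^ 3)) := by
  obtain ⟨g, g1, g2, g3⟩ := hL
  refine ⟨g, g1, fun s hs => ?_, g3⟩
  rw [g2 s hs]
  refine lser_eq (h.lfW (cv α β) (D * k * k) (⟨(Units.mk0 k hk)⁻¹, 0, 0, 0⟩ : VariableChange N) ?_) s
  rw [cv_scale, inv_inv, Units.val_mk0, hα, hβ]
  refine congrArg₂ cv ?_ ?_ <;> ring

/-- the transfer -/
theorem Four.thmB (h : Four a' b' a b n j' j d) (D₀ : ℤ) (hD₀ : D₀ ≠ 0)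
    (Q Q' : ∀ (_ℓ : ℕ) (N : Type) [Field N] [NumberField N], WeierstrassCurve N → Prop)
    (hQ : ∀ (F₀ : Type) [Field F₀] [NumberField F₀] (α β : 𝓞 F₀), 4 * α ^ 3 + 27 * β ^ 2 ≠ 0 →
      ∃ T : Finset ℕ, ∀ ℓ : ℕ, ℓ.Prime → ℓ ∉ T →
      ∀ (m : ℕ) (N L M : Type) [Field N] [NumberField N] [Field L] [NumberField L] [Field M]
      [NumberField M] [Algebra N L] [Algebra F₀ L] [Algebra L M] [Algebra F₀ M]
      [IsScalarTower F₀ L M] [IsGalois F₀ M], finrank F₀ M = ℓ ^ m →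
      ∀ (W : WeierstrassCurve N) (D : N), D ≠ 0 →
      (∃ C : VariableChange N, C • W = cv (a' * D ^ 2) (b' * D ^ 3)) →
      (∃ C : VariableChange L, C • (cv (a' * D ^ 2) (b' * D ^ 3)).baseChange L =
        cv (algebraMap F₀ L α) (algebraMap F₀ L β)) →
      Q ℓ N (cv (a * D ^ 2) (b * D ^ 3)) → Q' ℓ N W)
    (H : ThmB (a * D₀ ^ 2) (b * D₀ ^ 3) d Q) :
    ThmB (a' * D₀ ^ 2) (b' * D₀ ^ 3) d Q' := by
  intro K N₀ F₀ L₀ _ _ _ _ _ _ _ _ _ _ _ _ _ _ hK hz hN x y ht hxy α β hαβ hC₀ hg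
  obtain ⟨L, i1, i2, i3, i4, φ, x₁, y₁, ht₁, hxy₁⟩ := h.tors D₀ hD₀ x y ht hxy
  have i5 : NumberField L := NumberField.of_module_finite K L
  let aFL : Algebra F₀ L := ((φ : L₀ →+* L).comp (algebraMap F₀ L₀)).toAlgebra
  have i6 : IsScalarTower K F₀ L := by
    refine IsScalarTower.of_algebraMap_eq fun k => ?_
    show algebraMap K L k = φ (algebraMap F₀ L₀ (algebraMap K F₀ k))
    rw [← IsScalarTower.algebraMap_apply K F₀ L₀]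
    exact (φ.commutes k).symm
  obtain ⟨C₀, hC₀⟩ := hC₀
  let aNL : Algebra N₀ L₀ := ((algebraMap F₀ L₀).comp (algebraMap N₀ F₀)).toAlgebra
  have hDL : (D₀ : L₀) ≠ 0 := by exact_mod_cast hD₀
  have hC₁ : C₀ • (cv (algebraMap (𝓞 N₀) N₀ α) (algebraMap (𝓞 N₀) N₀ β)).baseChange L₀ =
      cv (a' * (D₀ : L₀) ^ 2) (b' * (D₀ : L₀) ^ 3) := by
    rw [WeierstrassCurve.baseChange, cv_map]
    refine Eq.trans hC₀ ?_
    push_cast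
    rfl
  obtain ⟨D, hD, hα, hβ, C₂, hC₂⟩ := h.clsB _ _ C₀ (D₀ : L₀) hDL hC₁
  obtain ⟨k, δ, hk, hδ, hdvd⟩ := h.intB α β D hD hα hβ hαβ
  have hkN : (k : N₀) ≠ 0 := by exact_mod_cast hk
  have hδ0 : δ ≠ 0 := by
    rintro rfl
    rw [map_zero] at hδ
    exact mul_ne_zero hD hkN hδ.symm
  have hinj := FaithfulSMul.algebraMap_injective (𝓞 N₀) N₀
  have hinj' := FaithfulSMul.algebraMap_injective (𝓞 N₀) (𝓞 F₀)
  have e1 : α * (k : 𝓞 N₀) ^ 2 = (a' : 𝓞 N₀) * δ ^ 2 := by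
    apply hinj
    simp only [map_mul, map_pow, map_intCast, hδ, hα]
    ring
  have e2 : β * (k : 𝓞 N₀) ^ 3 = (b' : 𝓞 N₀) * δ ^ 3 := by
    apply hinj
    simp only [map_mul, map_pow, map_intCast, hδ, hβ]
    ring
  have hne : 4 * ((a : 𝓞 N₀) * (δ * (k : 𝓞 N₀)) ^ 2) ^ 3 +
      27 * ((b : 𝓞 N₀) * (δ * (k : 𝓞 N₀)) ^ 3) ^ 2 ≠ 0 := by
    have e : 4 * ((a : 𝓞 N₀) * (δ * (k : 𝓞 N₀)) ^ 2) ^ 3 +
        27 * ((b : 𝓞 N₀) * (δ * (k : 𝓞 N₀)) ^ 3) ^ 2 =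
        ((4 * (a * 1 ^ 2) ^ 3 + 27 * (b * 1 ^ 3) ^ 2 : ℤ) : 𝓞 N₀) *
          (δ * (k : 𝓞 N₀)) ^ 6 := by
      push_cast
      ring
    rw [e]
    have hk0 : (k : 𝓞 N₀) ≠ 0 := by exact_mod_cast hk
    exact mul_ne_zero (by exact_mod_cast h.discV 1 one_ne_zero)
      (pow_ne_zero 6 (mul_ne_zero hδ0 hk0))
  have hkL₀ : (k : L₀) ≠ 0 := by exact_mod_cast hk
  have key1 : ∃ C : VariableChange L, C • (⟨0, 0, 0, algebraMap F₀ L (algebraMap N₀ F₀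
      (((a : 𝓞 N₀) * (δ * (k : 𝓞 N₀)) ^ 2 : 𝓞 N₀) : N₀)), algebraMap F₀ L (algebraMap N₀ F₀
      (((b : 𝓞 N₀) * (δ * (k : 𝓞 N₀)) ^ 3 : 𝓞 N₀) : N₀))⟩ : WeierstrassCurve L) =
        ⟨0, 0, 0, ((a * D₀ ^ 2 : ℤ) : L), ((b * D₀ ^ 3 : ℤ) : L)⟩ := by
    refine ⟨(C₂ * (⟨Units.mk0 (k : L₀) hkL₀, 0, 0, 0⟩ : VariableChange L₀)).map (φ : L₀ →+* L), ?_⟩
    have e4 : (⟨0, 0, 0, algebraMap F₀ L (algebraMap N₀ F₀
          (((a : 𝓞 N₀) * (δ * (k : 𝓞 N₀)) ^ 2 : 𝓞 N₀) : N₀)), algebraMap F₀ L (algebraMap N₀ F₀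
          (((b : 𝓞 N₀) * (δ * (k : 𝓞 N₀)) ^ 3 : 𝓞 N₀) : N₀))⟩ : WeierstrassCurve L) =
        (cv (algebraMap N₀ L₀ (algebraMap (𝓞 N₀) N₀ ((a : 𝓞 N₀) * (δ * (k : 𝓞 N₀)) ^ 2)))
          (algebraMap N₀ L₀ (algebraMap (𝓞 N₀) N₀ ((b : 𝓞 N₀) * (δ * (k : 𝓞 N₀)) ^ 3)))).map
          (φ : L₀ →+* L) := by
      rw [cv_map]
      rfl
    have e5 : (⟨0, 0, 0, ((a * D₀ ^ 2 : ℤ) : L), ((b * D₀ ^ 3 : ℤ) : L)⟩ : WeierstrassCurve L) =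
        (cv (a * (D₀ : L₀) ^ 2) (b * (D₀ : L₀) ^ 3)).map (φ : L₀ →+* L) := by
      rw [cv_map]
      simp only [map_mul, map_pow, map_intCast]
      push_cast
      rfl
    rw [e4, e5, map_variableChange, mul_smul, cv_scale]
    congr 1
    rw [← hC₂, WeierstrassCurve.baseChange, cv_map]
    congr 1
    refine congrArg₂ cv ?_ ?_
    · simp only [map_mul, map_pow, map_intCast, hδ, Units.val_inv_eq_inv_val, Units.val_mk0]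
      field_simp
    · simp only [map_mul, map_pow, map_intCast, hδ, Units.val_inv_eq_inv_val, Units.val_mk0]
      field_simp
  have key2 : Lne (⟨0, 0, 0, (((a : 𝓞 N₀) * (δ * (k : 𝓞 N₀)) ^ 2 : 𝓞 N₀) : N₀),
        (((b : 𝓞 N₀) * (δ * (k : 𝓞 N₀)) ^ 3 : 𝓞 N₀) : N₀)⟩ : WeierstrassCurve N₀) := by
    have e := h.lneB hα hβ hkN hg
    have e6 : (⟨0, 0, 0, (((a : 𝓞 N₀) * (δ * (k : 𝓞 N₀)) ^ 2 : 𝓞 N₀) : N₀),
        (((b : 𝓞 N₀) * (δ * (k : 𝓞 N₀)) ^ 3 : 𝓞 N₀) : N₀)⟩ : WeierstrassCurve N₀) =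
        cv (a * (D * k * k) ^ 2) (b * (D * k * k) ^ 3) := by
      refine congrArg₂ cv ?_ ?_
      · show algebraMap (𝓞 N₀) N₀ _ = _
        simp only [map_mul, map_pow, map_intCast, hδ]
      · show algebraMap (𝓞 N₀) N₀ _ = _
        simp only [map_mul, map_pow, map_intCast, hδ]
    rw [e6]
    exact e
  obtain ⟨S, hS⟩ := H K N₀ F₀ L hK hz hN x₁ y₁ ht₁ hxy₁ ((a : 𝓞 N₀) * (δ * (k : 𝓞 N₀)) ^ 2)
    ((b : 𝓞 N₀) * (δ * (k : 𝓞 N₀)) ^ 3) hne key1 key2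
  obtain ⟨T, hT⟩ := hQ F₀ (algebraMap (𝓞 N₀) (𝓞 F₀) α) (algebraMap (𝓞 N₀) (𝓞 F₀) β) (by
    intro h0
    apply hαβ
    apply hinj'
    simp only [map_add, map_mul, map_pow, map_ofNat, map_zero]
    exact h0)
  refine ⟨S ∪ T, fun ℓ hℓ hℓS => ?_⟩
  rw [Finset.mem_union, not_or] at hℓS
  refine h.towB _ _ (algebraMap (𝓞 N₀) (𝓞 F₀) δ) k hk ?_ ?_ ?_ ?_ (Q ℓ) (Q' ℓ)
    (hT ℓ hℓ hℓS.2) ?_
  · intro h0
    exact hδ0 ((injective_iff_map_eq_zero _).1 hinj' δ h0)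
  · have e := congrArg (algebraMap (𝓞 N₀) (𝓞 F₀)) e1
    simpa only [map_mul, map_pow, map_intCast] using e
  · have e := congrArg (algebraMap (𝓞 N₀) (𝓞 F₀)) e2
    simpa only [map_mul, map_pow, map_intCast] using e
  · have e := map_dvd (algebraMap (𝓞 N₀) (𝓞 F₀)) hdvd
    simpa only [map_add, map_mul, map_pow, map_intCast, map_ofNat] using e
  · have e := hS ℓ hℓ hℓS.1
    simpa only [map_mul, map_pow, map_intCast] using e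

end

end Pool.Agent.Lib.MP_1a91b9_nuI
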